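import Pool.Agent.R285.SchurG

/-!
# Logarithmic coefficients of the hyperbolic-cosine starlike class

For every `f` in `S*_ch` and every `n ≥ 1` one has `|γ_n| ≤ 1 / (2 n)`.
-/

set_option autoImplicit false

namespace Pool.Agent.Results.MP_3ad82e_an.LogCoefficients

open Metric Filter Topology
open Pool.Agent.R285.SchurE Pool.Agent.R285.SchurF Pool.Agent.R285.SchurG

noncomputable section

/-- `ω` is analytic on the unit disk, maps it into itself, and `ω 0 = 0`. -/
def IsSchwarz (ω : ℂ → ℂ) : Prop :=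
  DifferentiableOn ℂ ω (ball 0 1) ∧ (∀ z ∈ ball (0 : ℂ) 1, ω z ∈ ball (0 : ℂ) 1) ∧ ω 0 = 0

/-- `g ≺ h`: `g = h ∘ ω` on the unit disk for some Schwarz function `ω` (here `g` need only be
given off `0`). -/
def Subordinate (g h : ℂ → ℂ) : Prop :=
  ∃ ω : ℂ → ℂ, IsSchwarz ω ∧ ∀ z ∈ ball (0 : ℂ) 1, z ≠ 0 → g z = h (ω z)

/-- `φ₀(z) = z + cosh z` -/
def phi0 (z : ℂ) : ℂ := z + Complex.cosh z

/-- The class `S*_ch`: `f` is analytic on the unit disk, `f 0 = 0`, `f' 0 = 1`, `f` has no zero off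
`0` (so that `z f'(z) / f(z)` is analytic) and `z f'(z) / f(z) ≺ φ₀`. -/
def IsStarCosh (f : ℂ → ℂ) : Prop :=
  DifferentiableOn ℂ f (ball 0 1) ∧ f 0 = 0 ∧ deriv f 0 = 1 ∧
    (∀ z ∈ ball (0 : ℂ) 1, z ≠ 0 → f z ≠ 0) ∧ Subordinate (fun z => z * deriv f z / f z) phi0

/-- `g` is the analytic branch of `log (f z / z)` on the unit disk vanishing at `0`. -/
def IsLogBranch (f g : ℂ → ℂ) : Prop :=
  DifferentiableOn ℂ g (ball 0 1) ∧ g 0 = 0 ∧
    ∀ z ∈ ball (0 : ℂ) 1, z ≠ 0 → Complex.exp (g z) = f z / z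

/-- The logarithmic coefficient `γ_n`, where `log (f z / z) = g z = 2 ∑ γ_n z ^ n`. -/
def logCoeff (g : ℂ → ℂ) (n : ℕ) : ℂ := iteratedDeriv n g 0 / (2 * n.factorial)

lemma deriv_log {f g : ℂ → ℂ} (hf : DifferentiableOn ℂ f (ball 0 1)) (hg : IsLogBranch f g)
    {z : ℂ} (hz : z ∈ ball (0 : ℂ) 1) (hz0 : z ≠ 0) (hfz : f z ≠ 0) :
    z * deriv g z = z * deriv f z / f z - 1 := by
  have hgd : HasDerivAt g (deriv g z) z :=
    (hg.1.differentiableAt (isOpen_ball.mem_nhds hz)).hasDerivAt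
  have hfd : HasDerivAt f (deriv f z) z :=
    (hf.differentiableAt (isOpen_ball.mem_nhds hz)).hasDerivAt
  have h1 : HasDerivAt (fun w => Complex.exp (g w)) (Complex.exp (g z) * deriv g z) z := hgd.cexp
  have h2 : HasDerivAt (fun w => f w / w) ((deriv f z * z - f z * 1) / z ^ 2) z :=
    hfd.div (hasDerivAt_id z) hz0
  have h3 : (fun w => Complex.exp (g w)) =ᶠ[𝓝 z] fun w => f w / w := by
    have ho : IsOpen (ball (0 : ℂ) 1 \ {0}) := isOpen_ball.sdiff isClosed_singleton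
    filter_upwards [ho.mem_nhds ⟨hz, hz0⟩] with w hw
    exact hg.2.2 w hw.1 hw.2
  have h4 := (h1.congr_of_eventuallyEq h3.symm).unique h2
  rw [hg.2.2 z hz hz0] at h4
  field_simp at h4 ⊢
  linear_combination h4

lemma cf_id_mul {g : ℂ → ℂ} (hg : DifferentiableOn ℂ g (ball 0 1)) {n : ℕ} (hn : 1 ≤ n) :
    cf (fun z => z * deriv g z) n = n * cf g n := by
  obtain ⟨k, rfl⟩ : ∃ k, n = k + 1 := ⟨n - 1, by omega⟩
  have hdg : DifferentiableOn ℂ (deriv g) (ball 0 1) := hg.deriv isOpen_ball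
  have e1 : (fun z => z * deriv g z) = (fun z : ℂ => z) * deriv g := rfl
  have hid : ∀ i, cf (fun z : ℂ => z) i = if i = 1 then 1 else 0 := by
    intro i
    unfold cf
    rw [iteratedDeriv_fun_id_zero]
    by_cases h : i = 1
    · subst h; simp
    · rw [if_neg h]; simp
  rw [e1, cf_mul (f := fun z : ℂ => z) (differentiableOn_id) hdg,
    Finset.Nat.sum_antidiagonal_eq_sum_range_succ (fun a b => cf (fun z : ℂ => z) a * cf (deriv g) b),
    Finset.sum_eq_single 1]
  · rw [hid, if_pos rfl, one_mul, Nat.add_sub_cancel]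
    unfold cf
    rw [iteratedDeriv_succ', Nat.factorial_succ]
    have h3 : (k.factorial : ℂ) ≠ 0 := by exact_mod_cast k.factorial_ne_zero
    have h4 : ((k : ℂ) + 1) ≠ 0 := by exact_mod_cast k.succ_ne_zero
    push_cast
    field_simp
  · intro i _ hi
    rw [hid, if_neg hi, zero_mul]
  · intro h
    exact absurd (Finset.mem_range.mpr (by omega)) h

lemma exists_log {f : ℂ → ℂ} (hf : IsStarCosh f) : ∃ g, IsLogBranch f g := by
  obtain ⟨hfd, hf0, hf1, hfn, ω, ⟨hω, hωb, hω0⟩, hsub⟩ := hf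
  have hnhds : ball (0 : ℂ) 1 ∈ 𝓝 (0 : ℂ) := isOpen_ball.mem_nhds (by simp)
  set Φ : ℂ → ℂ := fun z => phi0 (ω z) - 1 with hΦ
  have hΦd : DifferentiableOn ℂ Φ (ball 0 1) := (hω.add hω.ccosh).sub_const 1
  have hΦ0 : Φ 0 = 0 := by
    rw [hΦ]
    simp [phi0, hω0]
  have hq : DifferentiableOn ℂ (dslope Φ 0) (ball 0 1) :=
    (Complex.differentiableOn_dslope hnhds).mpr hΦd
  obtain ⟨g, hg0, hg⟩ := hq.isExactOn_ball.with_val_at 0 0
  have hgd : DifferentiableOn ℂ g (ball 0 1) := fun z hz =>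
    (hg z hz).differentiableAt.differentiableWithinAt
  have hD : DifferentiableOn ℂ (dslope f 0) (ball 0 1) :=
    (Complex.differentiableOn_dslope hnhds).mpr hfd
  have hDz : ∀ z, z ≠ 0 → dslope f 0 z = f z / z := by
    intro z hz
    rw [dslope_of_ne f hz, slope_def_field, hf0, sub_zero, sub_zero]
  have hqz : ∀ z, z ≠ 0 → dslope Φ 0 z = Φ z / z := by
    intro z hz
    rw [dslope_of_ne Φ hz, slope_def_field, hΦ0, sub_zero, sub_zero]
  set u : ℂ → ℂ := fun z => dslope f 0 z * Complex.exp (-g z) with hu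
  have hud : DifferentiableOn ℂ u (ball 0 1) := hD.mul hgd.neg.cexp
  have hu1 : ∀ z ∈ ball (0 : ℂ) 1, z ≠ 0 → deriv u z = 0 := by
    intro z hz hz0
    have hfz := hfn z hz hz0
    have hfd' : HasDerivAt f (deriv f z) z :=
      (hfd.differentiableAt (isOpen_ball.mem_nhds hz)).hasDerivAt
    have h2 : HasDerivAt (fun w => f w / w) ((deriv f z * z - f z * 1) / z ^ 2) z :=
      hfd'.div (hasDerivAt_id z) hz0
    have h3 : HasDerivAt (dslope f 0) ((deriv f z * z - f z * 1) / z ^ 2) z := by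
      refine h2.congr_of_eventuallyEq ?_
      filter_upwards [isOpen_ne.mem_nhds hz0] with w hw
      exact hDz w hw
    have h4 : HasDerivAt (fun w => Complex.exp (-g w)) (Complex.exp (-g z) * (-dslope Φ 0 z)) z :=
      (hg z hz).neg.cexp
    have h5 := (h3.mul h4).deriv
    have h6 : deriv u z = (deriv f z * z - f z * 1) / z ^ 2 * Complex.exp (-g z)
        + dslope f 0 z * (Complex.exp (-g z) * (-dslope Φ 0 z)) := h5
    rw [h6, hDz z hz0, hqz z hz0]
    have h7 : Φ z = z * deriv f z / f z - 1 := by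
      rw [hΦ]
      simp only
      rw [← hsub z hz hz0]
    rw [h7]
    field_simp
    ring
  have hu0 : deriv u 0 = 0 := by
    have hc : ContinuousAt (deriv u) 0 :=
      ((hud.deriv isOpen_ball).differentiableAt hnhds).continuousAt
    have h1 : Tendsto (deriv u) (𝓝[≠] 0) (𝓝 (deriv u 0)) := hc.tendsto.mono_left nhdsWithin_le_nhds
    have h2 : Tendsto (deriv u) (𝓝[≠] 0) (𝓝 0) := by
      refine tendsto_const_nhds.congr' ?_
      have : ball (0 : ℂ) 1 ∈ 𝓝[≠] (0 : ℂ) := mem_nhdsWithin_of_mem_nhds hnhds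
      filter_upwards [this, self_mem_nhdsWithin] with w hw hw0
      exact (hu1 w hw hw0).symm
    exact tendsto_nhds_unique h1 h2
  have hconst : ∀ z ∈ ball (0 : ℂ) 1, u z = u 0 := by
    intro z hz
    refine isOpen_ball.is_const_of_deriv_eq_zero (convex_ball (0 : ℂ) 1).isPreconnected hud ?_ hz
      (by simp)
    intro w hw
    by_cases hw0 : w = 0
    · rw [hw0]; exact hu0
    · exact hu1 w hw hw0
  have hu00 : u 0 = 1 := by
    rw [hu]
    simp only
    rw [dslope_same, hf1, hg0]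
    simp
  refine ⟨g, hgd, hg0, fun z hz hz0 => ?_⟩
  have h1 := hconst z hz
  rw [hu00, hu] at h1
  simp only at h1
  rw [hDz z hz0, Complex.exp_neg] at h1
  have h2 := Complex.exp_ne_zero (g z)
  field_simp at h1 ⊢
  exact h1.symm

/-- **Theorem.** Every `f` in `S*_ch` has an analytic branch `g` of `log (f z / z)` with `g 0 = 0`,
and its coefficients satisfy `|γ_n| ≤ 1 / (2 n)` for all `n ≥ 1`. -/
theorem result (f : ℂ → ℂ) (hf : IsStarCosh f) :
    (∃ g, IsLogBranch f g) ∧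
      ∀ g, IsLogBranch f g → ∀ n : ℕ, 1 ≤ n → ‖logCoeff g n‖ ≤ 1 / (2 * (n : ℝ)) := by
  refine ⟨exists_log hf, fun g hg n hn => ?_⟩
  obtain ⟨hfd, hf0, hf1, hfn, ω, ⟨hω, hωb, hω0⟩, hsub⟩ := hf
  have hb : ∀ z ∈ ball (0 : ℂ) 1, ‖ω z‖ ≤ 1 := fun z hz =>
    (mem_ball_zero_iff.mp (hωb z hz)).le
  have h1 := coeff_cosh hω hb hω0 hn
  have hPd : DifferentiableOn ℂ (fun z => ω z + Complex.cosh (ω z)) (ball 0 1) := hω.add hω.ccosh
  have e1 : (fun z => z * deriv g z) =ᶠ[𝓝 0]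
      ((fun z => ω z + Complex.cosh (ω z)) + fun _ => (-1 : ℂ)) := by
    have hnhds : ball (0 : ℂ) 1 ∈ 𝓝 (0 : ℂ) := isOpen_ball.mem_nhds (by simp)
    filter_upwards [hnhds] with z hz
    by_cases hz0 : z = 0
    · rw [hz0]
      simp [hω0]
    · rw [deriv_log hfd hg hz hz0 (hfn z hz hz0)]
      have := hsub z hz hz0
      simp only [phi0] at this
      rw [Pi.add_apply, this]
      ring
  have e2 : cf (fun z => z * deriv g z) n = cf (fun z => ω z + Complex.cosh (ω z)) n := by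
    have : cf (fun z => z * deriv g z) n
        = cf ((fun z => ω z + Complex.cosh (ω z)) + fun _ => (-1 : ℂ)) n := by
      unfold cf
      rw [e1.iteratedDeriv_eq n]
    rw [this, cf_add hPd (differentiableOn_const _)]
    have h2 : cf (fun _ => (-1 : ℂ)) n = 0 := by
      unfold cf
      rw [iteratedDeriv_const, if_neg (by omega), zero_div]
    rw [h2, add_zero]
  rw [cf_id_mul hg.1 hn] at e2
  have h3 : ‖(n : ℂ) * cf g n‖ ≤ 1 := by rw [e2]; exact h1
  rw [norm_mul, Complex.norm_natCast] at h3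
  have hn0 : (0 : ℝ) < n := by exact_mod_cast hn
  have h4 : logCoeff g n = cf g n / 2 := by
    unfold logCoeff cf
    rw [div_div, mul_comm]
  rw [h4, norm_div, Complex.norm_ofNat, div_le_div_iff₀ (by norm_num) (by positivity)]
  nlinarith

end

end Pool.Agent.Results.MP_3ad82e_an.LogCoefficients
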